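import Mathlib

set_option autoImplicit false

/-!
# Characters of the cube of all subsets of a finite set
-/

namespace Pool.Agent.R158.SN

open Finset

variable {E : Type} [Fintype E] [DecidableEq E]

/-- the character `A ↦ (-1) ^ |A ∩ χ|` -/
def sg (χ A : Finset E) : ℝ := (-1) ^ (A ∩ χ).card

omit [Fintype E] in
lemma sg_mul_self (χ A : Finset E) : sg χ A * sg χ A = 1 := by
  unfold sg
  rw [← mul_pow]
  norm_num

omit [Fintype E] in
lemma abs_sg (χ A : Finset E) : |sg χ A| = 1 := by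
  unfold sg
  rw [abs_pow]
  norm_num

omit [Fintype E] in
lemma sg_prod (χ A : Finset E) : sg χ A = ∏ x ∈ A, (if x ∈ χ then (-1 : ℝ) else 1) := by
  unfold sg
  rw [prod_ite]
  simp only [prod_const, one_pow, mul_one]
  rw [filter_mem_eq_inter]

lemma sum_sg_mul (χ χ' : Finset E) :
    ∑ A, sg χ A * sg χ' A = if χ = χ' then (2 : ℝ) ^ Fintype.card E else 0 := by
  have h1 : ∀ A : Finset E, sg χ A * sg χ' A
      = (∏ x ∈ A, ((if x ∈ χ then (-1 : ℝ) else 1) * (if x ∈ χ' then (-1 : ℝ) else 1)))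
        * ∏ x ∈ univ \ A, (1 : ℝ) := by
    intro A
    rw [sg_prod, sg_prod, ← prod_mul_distrib, prod_const_one, mul_one]
  rw [sum_congr rfl fun A _ => h1 A]
  have h2 := Finset.prod_add (fun x : E => (if x ∈ χ then (-1 : ℝ) else 1) *
    (if x ∈ χ' then (-1 : ℝ) else 1)) (fun _ => (1 : ℝ)) univ
  rw [powerset_univ] at h2
  rw [← h2]
  split_ifs with h
  · subst h
    rw [← card_univ, ← prod_const]
    refine prod_congr rfl fun x _ => ?_
    split_ifs <;> norm_num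
  · obtain ⟨x, hx⟩ : ∃ x, ¬ (x ∈ χ ↔ x ∈ χ') := by
      by_contra hcon
      push Not at hcon
      exact h (Finset.ext hcon)
    refine prod_eq_zero (mem_univ x) ?_
    by_cases h1 : x ∈ χ <;> by_cases h2 : x ∈ χ' <;> simp [h1, h2] at hx ⊢

lemma parseval (Y : Finset (Finset E)) (c : Finset E → ℝ) :
    ∑ A, (∑ χ ∈ Y, c χ * sg χ A) ^ 2 = (2 : ℝ) ^ Fintype.card E * ∑ χ ∈ Y, c χ ^ 2 := by
  have h1 : ∀ A : Finset E, (∑ χ ∈ Y, c χ * sg χ A) ^ 2
      = ∑ χ ∈ Y, ∑ χ' ∈ Y, (c χ * c χ') * (sg χ A * sg χ' A) := by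
    intro A
    rw [sq, sum_mul_sum]
    refine sum_congr rfl fun χ _ => sum_congr rfl fun χ' _ => by ring
  rw [sum_congr rfl fun A _ => h1 A, sum_comm, mul_sum]
  refine sum_congr rfl fun χ hχ => ?_
  rw [sum_comm]
  have h2 : ∀ χ' ∈ Y, ∑ A, (c χ * c χ') * (sg χ A * sg χ' A)
      = if χ = χ' then (2 : ℝ) ^ Fintype.card E * c χ ^ 2 else 0 := by
    intro χ' _
    rw [← mul_sum, sum_sg_mul]
    split_ifs with h
    · subst h
      ring
    · ring
  rw [sum_congr rfl h2, sum_ite_eq Y χ]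
  rw [if_pos hχ]

/-- the sets on which a part of a Fourier expansion is large -/
lemma cheb (Y : Finset (Finset E)) (c : Finset E → ℝ) (η M : ℝ) (hη : ∀ χ ∈ Y, |c χ| ≤ η)
    (hM : ∑ χ, |c χ| ≤ M) (hη0 : 0 ≤ η) :
    ((univ.filter fun A : Finset E => 1 / 8 ≤ |∑ χ ∈ Y, c χ * sg χ A|).card : ℝ)
      ≤ 64 * (η * M) * (2 : ℝ) ^ Fintype.card E := by
  have h1 : ∑ χ ∈ Y, c χ ^ 2 ≤ η * M := by
    calc ∑ χ ∈ Y, c χ ^ 2 ≤ ∑ χ ∈ Y, η * |c χ| := by
          refine sum_le_sum fun χ hχ => ?_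
          rw [← sq_abs, sq]
          exact mul_le_mul_of_nonneg_right (hη χ hχ) (abs_nonneg _)
      _ = η * ∑ χ ∈ Y, |c χ| := by rw [mul_sum]
      _ ≤ η * M := mul_le_mul_of_nonneg_left
          ((sum_le_sum_of_subset_of_nonneg (subset_univ Y) fun _ _ _ => abs_nonneg _).trans hM) hη0
  have h2 := parseval Y c
  have h3 : ((univ.filter fun A : Finset E => 1 / 8 ≤ |∑ χ ∈ Y, c χ * sg χ A|).card : ℝ) * (1 / 64)
      ≤ ∑ A, (∑ χ ∈ Y, c χ * sg χ A) ^ 2 := by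
    calc ((univ.filter fun A : Finset E => 1 / 8 ≤ |∑ χ ∈ Y, c χ * sg χ A|).card : ℝ) * (1 / 64)
        = ∑ A ∈ univ.filter fun A : Finset E => 1 / 8 ≤ |∑ χ ∈ Y, c χ * sg χ A|, (1 / 64 : ℝ) := by
          rw [sum_const, nsmul_eq_mul]
      _ ≤ ∑ A ∈ univ.filter fun A : Finset E => 1 / 8 ≤ |∑ χ ∈ Y, c χ * sg χ A|,
          (∑ χ ∈ Y, c χ * sg χ A) ^ 2 := by
          refine sum_le_sum fun A hA => ?_
          have := (mem_filter.1 hA).2
          rw [← sq_abs]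
          nlinarith
      _ ≤ _ := sum_le_sum_of_subset_of_nonneg (subset_univ _) fun _ _ _ => sq_nonneg _
  have h4 : (2 : ℝ) ^ Fintype.card E * ∑ χ ∈ Y, c χ ^ 2 ≤ (2 : ℝ) ^ Fintype.card E * (η * M) :=
    mul_le_mul_of_nonneg_left h1 (by positivity)
  rw [h2] at h3
  linarith

/-- `g` is a sum of characters with coefficients of total absolute value at most `M` -/
def Spec (M : ℝ) (g : Finset E → ℝ) : Prop :=
  ∃ c : Finset E → ℝ, (∀ A, g A = ∑ χ, c χ * sg χ A) ∧ ∑ χ, |c χ| ≤ M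

end Pool.Agent.R158.SN
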