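import Mathlib
import Pool.Agent.R158.SN.Fourier

set_option autoImplicit false

/-!
# Families which are thresholds of parities with a margin are almost determined by few characters
-/

namespace Pool.Agent.R158.SN

open Finset

lemma exists_em (e : ℕ → ℝ) (he : ∀ r, 0 < e r) (n : ℕ) : ∃ m : ℝ, 0 < m ∧ ∀ r ≤ n, m ≤ e r := by
  induction n with
  | zero => exact ⟨e 0, he 0, fun r hr => by rw [Nat.le_zero.1 hr]⟩
  | succ n ih =>
    obtain ⟨m, hm, h⟩ := ih
    refine ⟨min m (e (n + 1)), lt_min hm (he _), fun r hr => ?_⟩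
    rcases Nat.lt_or_eq_of_le hr with h1 | h1
    · exact (min_le_left _ _).trans (h r (by omega))
    · rw [h1]
      exact min_le_right _ _

lemma sg_eq {E : Type} [DecidableEq E] (χ A : Finset E) :
    sg χ A = if (((A ∩ χ).card : ℕ) : ZMod 2) = 0 then 1 else -1 := by
  unfold sg
  split_ifs with h
  · rw [ZMod.natCast_eq_zero_iff_even] at h
    exact h.neg_one_pow
  · rw [ZMod.natCast_eq_zero_iff_even, Nat.not_even_iff_odd] at h
    exact h.neg_one_pow

/-- the scales -/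
noncomputable def scale (em : ℕ → ℝ) (M : ℝ) : ℕ → ℝ
  | 0 => 1
  | j + 1 => min (scale em M j) (em ⌊M / scale em M j⌋₊ / (64 * (M + 1)))

lemma scale_pos {em : ℕ → ℝ} (hem : ∀ n, 0 < em n) {M : ℝ} (hM : 0 ≤ M) (j : ℕ) :
    0 < scale em M j := by
  induction j with
  | zero => exact one_pos
  | succ j ih =>
    refine lt_min ih ?_
    have := hem ⌊M / scale em M j⌋₊
    positivity

lemma scale_anti {em : ℕ → ℝ} {M : ℝ} : Antitone (scale em M) :=
  antitone_nat_of_succ_le fun _ => min_le_left _ _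

theorem gap {ι : Type} [Fintype ι] (M : ℝ) (hM : 0 ≤ M) (e : ℕ → ℝ) (he : ∀ r, 0 < e r) :
    ∃ R : ℕ, ∀ (E : Type) [Fintype E] [DecidableEq E] (F : Finset (Finset E))
      (κ : Finset E → ι) (g : ι → Finset E → ℝ), (∀ i, Spec M (g i)) →
      (∀ A, (A ∈ F → 1 ≤ g (κ A) A) ∧ (A ∉ F → g (κ A) A ≤ -1)) →
      ∃ r ≤ R, ∃ (X : Fin r → Finset E) (T : ι → (Fin r → ZMod 2) → Prop),
        ∀ B : Finset (Finset E),
        (∀ A ∈ B, ¬ (A ∈ F ↔ T (κ A) (fun i => (((A ∩ X i).card : ℕ) : ZMod 2)))) →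
        (B.card : ℝ) ≤ e r * (2 : ℝ) ^ Fintype.card E := by
  classical
  choose em hem hem' using exists_em e he
  set M' : ℝ := Fintype.card ι * M with hM'
  have hM0 : 0 ≤ M' := by positivity
  obtain ⟨J, hJ⟩ := exists_nat_gt (8 * M')
  set η : ℕ → ℝ := scale em M' with hη
  have ηpos : ∀ j, 0 < η j := scale_pos hem hM0
  have ηanti : Antitone η := scale_anti
  have ηsucc : ∀ j, η (j + 1) ≤ em ⌊M' / η j⌋₊ / (64 * (M' + 1)) := fun j => min_le_right _ _
  refine ⟨⌊M' / η J⌋₊, fun E _ _ F κ g hg hF => ?_⟩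
  choose c hc hcM using hg
  set C : Finset E → ℝ := fun χ => ∑ i, |c i χ| with hC
  have hCle : ∀ i χ, |c i χ| ≤ C χ := fun i χ =>
    single_le_sum (f := fun i => |c i χ|) (fun _ _ => abs_nonneg _) (mem_univ i)
  have hC0 : ∀ χ, 0 ≤ C χ := fun χ => sum_nonneg fun _ _ => abs_nonneg _
  have hCM : ∑ χ, C χ ≤ M' := by
    rw [hC]
    simp only
    rw [sum_comm]
    calc ∑ i, ∑ χ, |c i χ| ≤ ∑ _i : ι, M := sum_le_sum fun i _ => hcM i
      _ = M' := by rw [sum_const, nsmul_eq_mul, card_univ]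
  -- the scale
  set I : ℕ → Finset (Finset E) := fun j => univ.filter fun χ => η (j + 1) ≤ C χ ∧ C χ < η j with hI
  obtain ⟨j, hj, hjI⟩ : ∃ j < J, ∑ χ ∈ I j, C χ ≤ 1 / 8 := by
    by_contra hcon
    push Not at hcon
    have hdis : ((range J : Finset ℕ) : Set ℕ).PairwiseDisjoint I := by
      intro a _ b _ hab
      rw [Function.onFun, Finset.disjoint_left]
      intro χ ha hb
      rw [hI] at ha hb
      simp only [mem_filter, mem_univ, true_and] at ha hb
      rcases Nat.lt_or_gt_of_ne hab with h | h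
      · have : η b ≤ η (a + 1) := ηanti (by omega)
        linarith [ha.1, hb.2]
      · have : η a ≤ η (b + 1) := ηanti (by omega)
        linarith [hb.1, ha.2]
    have h1 : ∑ j ∈ range J, ∑ χ ∈ I j, C χ ≤ M' := by
      rw [← sum_biUnion hdis]
      exact (sum_le_sum_of_subset_of_nonneg (subset_univ _) fun χ _ _ => hC0 χ).trans hCM
    have h2 : ∑ j ∈ range J, (1 / 8 : ℝ) ≤ ∑ j ∈ range J, ∑ χ ∈ I j, C χ :=
      sum_le_sum fun j hj => (hcon j (mem_range.1 hj)).le
    rw [sum_const, card_range, nsmul_eq_mul] at h2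
    linarith
  set X₀ : Finset (Finset E) := univ.filter fun χ => η j ≤ C χ with hX₀
  set Y : Finset (Finset E) := univ.filter fun χ => C χ < η (j + 1) with hY
  have hcard : X₀.card ≤ ⌊M' / η j⌋₊ := by
    rw [Nat.le_floor_iff (div_nonneg hM0 (ηpos j).le), le_div_iff₀ (ηpos j)]
    calc (X₀.card : ℝ) * η j = ∑ _χ ∈ X₀, η j := by rw [sum_const, nsmul_eq_mul]
      _ ≤ ∑ χ ∈ X₀, C χ := sum_le_sum fun χ hχ => (mem_filter.1 hχ).2
      _ ≤ ∑ χ, C χ := sum_le_sum_of_subset_of_nonneg (subset_univ _) fun χ _ _ => hC0 χ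
      _ ≤ M' := hCM
  have hR : X₀.card ≤ ⌊M' / η J⌋₊ := by
    refine hcard.trans (Nat.floor_le_floor ?_)
    exact div_le_div_of_nonneg_left hM0 (ηpos J) (ηanti (by omega))
  refine ⟨X₀.card, hR, fun l => (X₀.equivFin.symm l).1,
    fun i v => 0 < ∑ l : Fin X₀.card, c i (X₀.equivFin.symm l).1 * (if v l = 0 then 1 else -1),
    fun B hB => ?_⟩
  set Z : ι → Finset (Finset E) := fun i =>
    univ.filter fun A : Finset E => 1 / 8 ≤ |∑ χ ∈ Y, c i χ * sg χ A| with hZ
  have hsub : B ⊆ univ.biUnion Z := by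
    intro A hA
    by_contra hcon
    refine hB A hA ?_
    simp only [mem_biUnion, mem_univ, true_and, not_exists] at hcon
    have h1 := hcon (κ A)
    rw [hZ] at h1
    simp only [mem_filter, mem_univ, true_and, not_le] at h1
    have h2 : |∑ χ ∈ I j, c (κ A) χ * sg χ A| ≤ 1 / 8 := by
      calc |∑ χ ∈ I j, c (κ A) χ * sg χ A| ≤ ∑ χ ∈ I j, |c (κ A) χ * sg χ A| :=
            abs_sum_le_sum_abs _ _
        _ ≤ ∑ χ ∈ I j, C χ := by
            refine sum_le_sum fun χ _ => ?_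
            rw [abs_mul, abs_sg, mul_one]
            exact hCle _ _
        _ ≤ 1 / 8 := hjI
    have h3 : g (κ A) A = ∑ χ ∈ X₀, c (κ A) χ * sg χ A + ∑ χ ∈ I j, c (κ A) χ * sg χ A
        + ∑ χ ∈ Y, c (κ A) χ * sg χ A := by
      rw [hc, hX₀, hI, hY]
      simp only
      rw [sum_filter, sum_filter, sum_filter, ← sum_add_distrib, ← sum_add_distrib]
      refine sum_congr rfl fun χ _ => ?_
      have h4 : η (j + 1) ≤ η j := ηanti (by omega)
      by_cases ha : η j ≤ C χ
      · have hb : ¬ (η (j + 1) ≤ C χ ∧ C χ < η j) := fun h => by linarith [h.2]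
        have hc' : ¬ (C χ < η (j + 1)) := by
          push Not
          linarith
        rw [if_pos ha, if_neg hb, if_neg hc', add_zero, add_zero]
      · push Not at ha
        have ha' : ¬ (η j ≤ C χ) := not_le.2 ha
        by_cases hb : η (j + 1) ≤ C χ
        · rw [if_neg ha', if_pos ⟨hb, ha⟩, if_neg (not_lt.2 hb), add_zero, zero_add]
        · rw [if_neg ha', if_neg (fun h => hb h.1), if_pos (not_le.1 hb), zero_add, zero_add]
    have h5 : ∑ l : Fin X₀.card, c (κ A) (X₀.equivFin.symm l).1 *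
        (if (((A ∩ (X₀.equivFin.symm l).1).card : ℕ) : ZMod 2) = 0 then 1 else -1)
        = ∑ χ ∈ X₀, c (κ A) χ * sg χ A := by
      rw [← Finset.sum_coe_sort X₀ (fun χ => c (κ A) χ * sg χ A),
        ← Equiv.sum_comp X₀.equivFin.symm]
      refine sum_congr rfl fun l _ => ?_
      rw [sg_eq]
    have h6 := (abs_lt.1 h1)
    have h7 := (abs_le.1 h2)
    simp only
    rw [h5]
    constructor
    · intro hAF
      have h8 := (hF A).1 hAF
      rw [h3] at h8
      linarith [h6.2, h7.2]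
    · intro hT
      by_contra hAF
      have h8 := (hF A).2 hAF
      rw [h3] at h8
      linarith [h6.1, h7.1]
  have h1 : (B.card : ℝ) ≤ ∑ i, ((Z i).card : ℝ) := by
    have := (card_le_card hsub).trans card_biUnion_le
    exact_mod_cast this
  have h2 : ∀ i, ((Z i).card : ℝ) ≤ 64 * (η (j + 1) * M) * (2 : ℝ) ^ Fintype.card E := by
    intro i
    refine cheb Y (c i) (η (j + 1)) M ?_ (hcM i) (ηpos _).le
    intro χ hχ
    exact (hCle i χ).trans (mem_filter.1 hχ).2.le
  have h3 : ∑ i, ((Z i).card : ℝ) ≤ 64 * (η (j + 1) * M') * (2 : ℝ) ^ Fintype.card E := by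
    calc ∑ i, ((Z i).card : ℝ) ≤ ∑ _i : ι, 64 * (η (j + 1) * M) * (2 : ℝ) ^ Fintype.card E :=
          sum_le_sum fun i _ => h2 i
      _ = _ := by
          rw [sum_const, nsmul_eq_mul, card_univ, hM']
          ring
  have h4 : 64 * (η (j + 1) * M') ≤ e X₀.card := by
    have h5 := ηsucc j
    have h6 := hem' _ _ hcard
    have h7 := hem ⌊M' / η j⌋₊
    have h8 : 64 * (η (j + 1) * M') ≤ 64 * (em ⌊M' / η j⌋₊ / (64 * (M' + 1)) * M') := by
      have := mul_le_mul_of_nonneg_right h5 hM0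
      linarith
    have h9 : 64 * (em ⌊M' / η j⌋₊ / (64 * (M' + 1)) * M') ≤ em ⌊M' / η j⌋₊ := by
      have e1 : 64 * (em ⌊M' / η j⌋₊ / (64 * (M' + 1)) * M')
          = em ⌊M' / η j⌋₊ * M' / (M' + 1) := by
        field_simp
      rw [e1, div_le_iff₀ (by linarith)]
      nlinarith
    linarith
  calc (B.card : ℝ) ≤ _ := h1
    _ ≤ _ := h3
    _ ≤ e X₀.card * (2 : ℝ) ^ Fintype.card E := mul_le_mul_of_nonneg_right h4 (by positivity)

end Pool.Agent.R158.SN
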