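import Mathlib
import Pool.Agent.R158.SN.Gap
import Pool.Agent.TH484.PH.Crit

set_option autoImplicit false

/-!
# Thresholds of parities with a margin on the cells of a structured partition
-/

namespace Pool.Agent.R158.SN

open Finset Filter
open Pool.Agent.TH484.PH (poly Reg GoodF StructuredF)

/-- coefficients of the parities -/
def parC {E : Type} [DecidableEq E] {r : ℕ} (X : Fin r → Finset E) (T : Finset E) :
    Fin r → ZMod 2 := fun i => if T.card = 1 ∧ T ⊆ X i then 1 else 0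

/-- coefficients of a polynomial and some parities -/
def pairC {E G : Type} [DecidableEq E] [AddCommGroup G] {r : ℕ} (D : ℕ) (c : Finset E → G)
    (X : Fin r → Finset E) (T : Finset E) : G × (Fin r → ZMod 2) :=
  (if T.card ≤ D then c T else 0, parC X T)

lemma poly_pair {E G : Type} [DecidableEq E] [AddCommGroup G] {r : ℕ} (D : ℕ) (c : Finset E → G)
    (X : Fin r → Finset E) (A : Finset E) :
    poly (max D 1) (pairC D c X) A
      = (poly D c A, fun i => (((A ∩ X i).card : ℕ) : ZMod 2)) := by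
  unfold poly
  refine Prod.ext ?_ ?_
  · rw [Prod.fst_sum]
    simp only [pairC]
    rw [← sum_filter, filter_filter]
    refine sum_congr ?_ fun _ _ => rfl
    refine filter_congr fun T _ => ?_
    constructor
    · exact fun h => h.2
    · exact fun h => ⟨le_max_of_le_left h, h⟩
  · rw [Prod.snd_sum]
    funext i
    rw [Finset.sum_apply]
    simp only [pairC, parC]
    rw [← sum_filter, sum_const, nsmul_eq_mul, mul_one]
    congr 1
    have h1 : ((A ∩ X i).image (fun x => ({x} : Finset E))).card = (A ∩ X i).card :=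
      card_image_of_injective _ singleton_injective
    rw [← h1]
    congr 1
    ext T
    simp only [mem_filter, mem_powerset, mem_image, mem_inter]
    constructor
    · rintro ⟨⟨hTA, -⟩, hT1, hTX⟩
      obtain ⟨x, rfl⟩ := card_eq_one.1 hT1
      exact ⟨x, ⟨singleton_subset_iff.1 hTA, singleton_subset_iff.1 hTX⟩, rfl⟩
    · rintro ⟨x, ⟨hxA, hxX⟩, rfl⟩
      refine ⟨⟨singleton_subset_iff.2 hxA, ?_⟩, card_singleton x, singleton_subset_iff.2 hxX⟩
      rw [card_singleton]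
      exact le_max_right _ _

lemma card_cells (d N : ℕ) : (2 : ℝ) ^ Fintype.card (Fin d → Fin N) = (2 : ℝ) ^ (N ^ d) := by
  simp

/-- comparison of two families -/
lemma card_le_add {E : Type} [DecidableEq E] (F F' : Finset E) :
    (F.card : ℝ) ≤ F'.card + (F \ F').card := by
  have h1 : F ⊆ F' ∪ (F \ F') := by
    intro x hx
    by_cases h : x ∈ F'
    · exact mem_union_left _ h
    · exact mem_union_right _ (mem_sdiff.2 ⟨hx, h⟩)
  have := (card_le_card h1).trans (card_union_le _ _)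
  exact_mod_cast this

theorem absolute (d : ℕ) (hd : 1 ≤ d) (D k r : ℕ) (G : Type) [AddCommGroup G] [Finite G]
    (M δ : ℝ) (hM : 0 ≤ M) (hδ : 0 < δ) :
    ∃ ε : ℝ, 0 < ε ∧ ∃ N₀ : ℕ, ∀ N : ℕ, N₀ ≤ N →
      ∀ (h : Fin r → Finset (Fin d → Fin N) → ℝ) (c : Finset (Fin d → Fin N) → G)
        (g : (Fin r → Prop) → G → Finset (Fin d → Fin N) → ℝ)
        (F S : Finset (Finset (Fin d → Fin N))),
        (∀ i, ∃ j, 1 ≤ j ∧ j ≤ k ∧ Reg j (h i)) → (∀ σ a, Spec M (g σ a)) →
        (∀ A, (A ∈ F → 1 ≤ g (fun i => 0 < h i A) (poly D c A) A) ∧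
          (A ∉ F → g (fun i => 0 < h i A) (poly D c A) A ≤ -1)) →
        δ * (2 : ℝ) ^ (N ^ d) ≤ F.card →
          ((F \ S).card : ℝ) ≤ ε * (2 : ℝ) ^ (N ^ d) → GoodF S := by
  classical
  have := Fintype.ofFinite G
  choose ε0 hε0 N0 hN0 using fun r' : ℕ => Pool.Agent.TH484.PH.main d hd (max D 1) k r
    (G × (Fin r' → ZMod 2)) (δ / 2) (half_pos hδ)
  obtain ⟨R, hR⟩ := gap (ι := (Fin r → Prop) × G) M hM (fun r' => min (ε0 r' / 2) (δ / 2))
    (fun r' => lt_min (half_pos (hε0 r')) (half_pos hδ))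
  obtain ⟨ε, hε, hεle⟩ := exists_em (fun r' => ε0 r' / 2) (fun r' => half_pos (hε0 r')) R
  refine ⟨ε, hε, (range (R + 1)).sup N0, fun N hN h c g F S hh hg hF hFc hFS => ?_⟩
  obtain ⟨r', hr', X, T, hB⟩ := hR (Fin d → Fin N) F (fun A => (fun i => 0 < h i A, poly D c A))
    (fun p => g p.1 p.2) (fun p => hg p.1 p.2) (fun A => hF A)
  rw [card_cells] at hB
  have hN' : N0 r' ≤ N := (le_sup (f := N0) (mem_range.2 (by omega))).trans hN
  set W : ℝ := (2 : ℝ) ^ (N ^ d) with hW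
  have hW0 : 0 < W := by positivity
  set F' : Finset (Finset (Fin d → Fin N)) := univ.filter fun A =>
    T (fun i => 0 < h i A, poly D c A) (fun i => (((A ∩ X i).card : ℕ) : ZMod 2)) with hF'
  have h1 := hB (F \ F') (fun A hA hcon => by
    obtain ⟨ha, hb⟩ := mem_sdiff.1 hA
    exact hb (mem_filter.2 ⟨mem_univ _, hcon.1 ha⟩))
  have h2 := hB (F' \ F) (fun A hA hcon => by
    obtain ⟨ha, hb⟩ := mem_sdiff.1 hA
    exact hb (hcon.2 (mem_filter.1 ha).2))
  have h3 := card_le_add F F'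
  have h4 := card_le_add (F' \ S) (F \ S)
  have h5 : (((F' \ S) \ (F \ S)).card : ℝ) ≤ (F' \ F).card := by
    have : (F' \ S) \ (F \ S) ⊆ F' \ F := by
      intro A hA
      obtain ⟨ha, hb⟩ := mem_sdiff.1 hA
      obtain ⟨ha1, ha2⟩ := mem_sdiff.1 ha
      exact mem_sdiff.2 ⟨ha1, fun hc => hb (mem_sdiff.2 ⟨hc, ha2⟩)⟩
    exact_mod_cast card_le_card this
  have h6 : min (ε0 r' / 2) (δ / 2) * W ≤ δ / 2 * W :=
    mul_le_mul_of_nonneg_right (min_le_right _ _) hW0.le
  have h7 : min (ε0 r' / 2) (δ / 2) * W ≤ ε0 r' / 2 * W :=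
    mul_le_mul_of_nonneg_right (min_le_left _ _) hW0.le
  have h8 : ε * W ≤ ε0 r' / 2 * W := mul_le_mul_of_nonneg_right (hεle r' hr') hW0.le
  refine hN0 r' N hN' h (pairC D c X) (fun σ v => T (σ, v.1) v.2) F' S hh (fun A => ?_) ?_ ?_
  · rw [poly_pair, hF', mem_filter]
    simp only [mem_univ, true_and]
  · linarith
  · linarith

theorem relative (d : ℕ) (hd : 1 ≤ d) (t : ℝ) (ht : ∀ δ : ℝ, t < δ → ∃ N₀ : ℕ, ∀ N : ℕ, N₀ ≤ N →
      ∀ S : Finset (Finset (Fin d → Fin N)), δ * (2 : ℝ) ^ (N ^ d) < S.card → GoodF S)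
    (D k r : ℕ) (G : Type) [AddCommGroup G] [Finite G] (M δ θ : ℝ) (hM : 0 ≤ M) (hδ : 0 < δ)
    (hθ : t < θ) :
    ∃ N₀ : ℕ, ∀ N : ℕ, N₀ ≤ N →
      ∀ (h : Fin r → Finset (Fin d → Fin N) → ℝ) (c : Finset (Fin d → Fin N) → G)
        (g : (Fin r → Prop) → G → Finset (Fin d → Fin N) → ℝ)
        (F S : Finset (Finset (Fin d → Fin N))),
        (∀ i, ∃ j, 1 ≤ j ∧ j ≤ k ∧ Reg j (h i)) →
        (∀ T, c T ≠ 0 → ∀ x ∈ T, ∀ y ∈ T, ∃ i j, x i = y j) → (∀ σ a, Spec M (g σ a)) →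
        (∀ A, (A ∈ F → 1 ≤ g (fun i => 0 < h i A) (poly D c A) A) ∧
          (A ∉ F → g (fun i => 0 < h i A) (poly D c A) A ≤ -1)) →
        δ * (2 : ℝ) ^ (N ^ d) ≤ F.card → θ * F.card ≤ (F ∩ S).card → GoodF S := by
  classical
  have := Fintype.ofFinite G
  obtain ⟨θd, hθ0, -, hcrit⟩ := Pool.Agent.TH484.PH.crit d hd
  -- the critical density is at most `t`
  have hθt : θd ≤ t := by
    by_contra hcon
    push Not at hcon
    obtain ⟨N₁, hN₁⟩ := ht ((θd + t) / 2) (by linarith)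
    obtain ⟨-, h2⟩ := hcrit 0 0 0 Unit
    obtain ⟨N₂, hN₂⟩ := h2 ((θd - t) / 4) (by linarith)
    obtain ⟨S, hS, hF⟩ := hN₂ (max N₁ N₂) (le_max_right _ _)
    refine hS (hN₁ (max N₁ N₂) (le_max_left _ _) S ?_)
    have h3 := hF univ ⟨fun i => i.elim0, fun _ => 0, fun _ _ => True, fun i => i.elim0,
      fun T hT => (hT rfl).elim, fun A => by simp⟩
    rw [univ_inter, card_univ, Fintype.card_finset] at h3
    have h4 : (((2 ^ Fintype.card (Fin d → Fin (max N₁ N₂)) : ℕ)) : ℝ)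
        = (2 : ℝ) ^ ((max N₁ N₂) ^ d) := by
      rw [← card_cells]
      push_cast
      rfl
    rw [h4] at h3
    have h5 := (abs_le.1 h3).1
    have hW0 : (0 : ℝ) < (2 : ℝ) ^ ((max N₁ N₂) ^ d) := by positivity
    nlinarith
  have hθd : θd < θ := by linarith
  have hθpos : 0 < θ := by linarith
  set θ' : ℝ := (θd + θ) / 2 with hθ'
  have h01 : θd < θ' := by rw [hθ']; linarith
  have h02 : θ' < θ := by rw [hθ']; linarith
  choose N0 hN0 using fun r' : ℕ => (hcrit (max D 1) k r (G × (Fin r' → ZMod 2))).1 θ' (δ / 2) h01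
    (half_pos hδ)
  set e : ℝ := min (δ / 2) ((θ - θ') * δ / (2 * (θ + 1))) with he
  have he0 : 0 < e := by
    refine lt_min (half_pos hδ) (div_pos (mul_pos (by linarith) hδ) (by linarith))
  obtain ⟨R, hR⟩ := gap (ι := (Fin r → Prop) × G) M hM (fun _ => e) (fun _ => he0)
  refine ⟨(range (R + 1)).sup N0, fun N hN h c g F S hh hl hg hF hFc hFS => ?_⟩
  obtain ⟨r', hr', X, T, hB⟩ := hR (Fin d → Fin N) F (fun A => (fun i => 0 < h i A, poly D c A))
    (fun p => g p.1 p.2) (fun p => hg p.1 p.2) (fun A => hF A)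
  rw [card_cells] at hB
  have hN' : N0 r' ≤ N := (le_sup (f := N0) (mem_range.2 (by omega))).trans hN
  set W : ℝ := (2 : ℝ) ^ (N ^ d) with hW
  have hW0 : 0 < W := by positivity
  set F' : Finset (Finset (Fin d → Fin N)) := univ.filter fun A =>
    T (fun i => 0 < h i A, poly D c A) (fun i => (((A ∩ X i).card : ℕ) : ZMod 2)) with hF'
  have h1 := hB (F \ F') (fun A hA hcon => by
    obtain ⟨ha, hb⟩ := mem_sdiff.1 hA
    exact hb (mem_filter.2 ⟨mem_univ _, hcon.1 ha⟩))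
  have h2 := hB (F' \ F) (fun A hA hcon => by
    obtain ⟨ha, hb⟩ := mem_sdiff.1 hA
    exact hb (hcon.2 (mem_filter.1 ha).2))
  have h3 := card_le_add F F'
  have h3' := card_le_add F' F
  have h4 := card_le_add (F ∩ S) (F' ∩ S)
  have h5 : (((F ∩ S) \ (F' ∩ S)).card : ℝ) ≤ (F \ F').card := by
    have : (F ∩ S) \ (F' ∩ S) ⊆ F \ F' := by
      intro A hA
      obtain ⟨ha, hb⟩ := mem_sdiff.1 hA
      obtain ⟨ha1, ha2⟩ := mem_inter.1 ha
      exact mem_sdiff.2 ⟨ha1, fun hc => hb (mem_inter.2 ⟨hc, ha2⟩)⟩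
    exact_mod_cast card_le_card this
  have h6 : e * W ≤ δ / 2 * W := mul_le_mul_of_nonneg_right (min_le_left _ _) hW0.le
  have h7 : (θ + 1) * (e * W) ≤ (θ - θ') * (δ / 2 * W) := by
    have h8 : e ≤ (θ - θ') * δ / (2 * (θ + 1)) := min_le_right _ _
    rw [le_div_iff₀ (by linarith)] at h8
    have h9 := mul_le_mul_of_nonneg_right h8 hW0.le
    linarith
  have h10 : δ / 2 * W ≤ F'.card := by linarith
  refine hN0 r' N hN' F' S ⟨h, pairC D c X, fun σ v => T (σ, v.1) v.2, hh, ?_, fun A => ?_⟩ h10 ?_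
  · intro T' hT' x hx y hy
    by_cases hc : c T' = 0
    · have h11 : parC X T' ≠ 0 := by
        intro h12
        apply hT'
        unfold pairC
        rw [h12, hc]
        simp
      have h13 : T'.card = 1 := by
        by_contra hne
        apply h11
        funext i
        unfold parC
        rw [if_neg fun h => hne h.1]
        rfl
      obtain ⟨z, rfl⟩ := card_eq_one.1 h13
      rw [mem_singleton] at hx hy
      rw [hx, hy]
      exact ⟨⟨0, hd⟩, ⟨0, hd⟩, rfl⟩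
    · exact hl T' hc x hx y hy
  · rw [poly_pair, hF', mem_filter]
    simp only [mem_univ, true_and]
  · have h11 : θ' * (F'.card : ℝ) + (θ + 1) * (e * W) ≤ θ * F'.card := by
      have h12 : (θ - θ') * (δ / 2 * W) ≤ (θ - θ') * F'.card :=
        mul_le_mul_of_nonneg_left h10 (by linarith)
      linarith
    have h13 : θ * (F'.card : ℝ) ≤ θ * (F.card + e * W) :=
      mul_le_mul_of_nonneg_left (by linarith) hθpos.le
    linarith

end Pool.Agent.R158.SN
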