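import Mathlib
import Pool.Agent.R158.SN.Fourier

set_option autoImplicit false

/-!
# The algebra of the functions of bounded spectral norm
-/

namespace Pool.Agent.R158.SN

open Finset

variable {E : Type} [Fintype E] [DecidableEq E]

omit [Fintype E] in
lemma sg_mul (χ χ' A : Finset E) : sg χ A * sg χ' A = sg (symmDiff χ χ') A := by
  rw [sg_prod, sg_prod, sg_prod, ← prod_mul_distrib]
  refine prod_congr rfl fun x _ => ?_
  by_cases h1 : x ∈ χ <;> by_cases h2 : x ∈ χ' <;> simp [h1, h2, mem_symmDiff]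

omit [Fintype E] in
lemma sg_empty (A : Finset E) : sg (∅ : Finset E) A = 1 := by simp [sg]

lemma Spec.nonneg {M : ℝ} {g : Finset E → ℝ} (h : Spec M g) : 0 ≤ M := by
  obtain ⟨c, -, hc⟩ := h
  exact (sum_nonneg fun _ _ => abs_nonneg _).trans hc

lemma Spec.mono {M M' : ℝ} {g : Finset E → ℝ} (h : Spec M g) (hM : M ≤ M') : Spec M' g := by
  obtain ⟨c, h1, h2⟩ := h
  exact ⟨c, h1, h2.trans hM⟩

lemma spec_char (χ : Finset E) : Spec 1 (sg χ) := by
  refine ⟨fun ψ => if ψ = χ then 1 else 0, fun A => ?_, ?_⟩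
  · simp
  · simp [apply_ite abs]

lemma Spec.smul {M : ℝ} {g : Finset E → ℝ} (h : Spec M g) (t : ℝ) :
    Spec (|t| * M) (fun A => t * g A) := by
  obtain ⟨c, h1, h2⟩ := h
  refine ⟨fun χ => t * c χ, fun A => ?_, ?_⟩
  · beta_reduce
    rw [h1, mul_sum]
    exact sum_congr rfl fun χ _ => by ring
  · simp only [abs_mul]
    rw [← mul_sum]
    exact mul_le_mul_of_nonneg_left h2 (abs_nonneg _)

lemma spec_const (t : ℝ) : Spec |t| (fun _ : Finset E => t) := by
  have h := (spec_char (∅ : Finset E)).smul t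
  simp only [sg_empty, mul_one] at h
  exact h

lemma Spec.add {M M' : ℝ} {g g' : Finset E → ℝ} (h : Spec M g) (h' : Spec M' g') :
    Spec (M + M') (fun A => g A + g' A) := by
  obtain ⟨c, h1, h2⟩ := h
  obtain ⟨c', h1', h2'⟩ := h'
  refine ⟨fun χ => c χ + c' χ, fun A => ?_, ?_⟩
  · beta_reduce
    rw [h1, h1', ← sum_add_distrib]
    exact sum_congr rfl fun χ _ => by ring
  · calc ∑ χ, |c χ + c' χ| ≤ ∑ χ, (|c χ| + |c' χ|) := sum_le_sum fun χ _ => abs_add_le _ _
      _ ≤ M + M' := by rw [sum_add_distrib]; exact add_le_add h2 h2'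

lemma Spec.mul {M M' : ℝ} {g g' : Finset E → ℝ} (h : Spec M g) (h' : Spec M' g') :
    Spec (M * M') (fun A => g A * g' A) := by
  have hM := h.nonneg
  obtain ⟨c, h1, h2⟩ := h
  obtain ⟨c', h1', h2'⟩ := h'
  have hsh : ∀ (χ : Finset E) (f : Finset E → ℝ), ∑ ψ, f (symmDiff χ ψ) = ∑ ψ, f ψ := by
    intro χ f
    exact Equiv.sum_comp (Function.Involutive.toPerm (fun ψ => symmDiff χ ψ)
      (fun ψ => symmDiff_symmDiff_cancel_left χ ψ)) f
  refine ⟨fun ψ => ∑ χ, c χ * c' (symmDiff χ ψ), fun A => ?_, ?_⟩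
  · beta_reduce
    rw [h1, h1', sum_mul_sum]
    simp only [sum_mul]
    rw [sum_comm (s := univ) (t := univ) (f := fun ψ χ => c χ * c' (symmDiff χ ψ) * sg ψ A)]
    refine sum_congr rfl fun χ _ => ?_
    rw [← hsh χ (fun ψ => c χ * sg χ A * (c' ψ * sg ψ A))]
    refine sum_congr rfl fun ψ _ => ?_
    have h3 : sg χ A * sg (symmDiff χ ψ) A = sg ψ A := by
      rw [sg_mul, symmDiff_symmDiff_cancel_left]
    rw [← h3]
    ring
  · calc ∑ ψ, |∑ χ, c χ * c' (symmDiff χ ψ)| ≤ ∑ ψ, ∑ χ, |c χ| * |c' (symmDiff χ ψ)| := by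
          refine sum_le_sum fun ψ _ => (abs_sum_le_sum_abs _ _).trans (le_of_eq ?_)
          exact sum_congr rfl fun χ _ => abs_mul _ _
      _ = ∑ χ, |c χ| * ∑ ψ, |c' ψ| := by
          rw [sum_comm]
          refine sum_congr rfl fun χ _ => ?_
          rw [← mul_sum, hsh χ (fun ψ => |c' ψ|)]
      _ = (∑ χ, |c χ|) * ∑ ψ, |c' ψ| := by rw [sum_mul]
      _ ≤ M * M' := mul_le_mul h2 h2' (sum_nonneg fun _ _ => abs_nonneg _) hM

lemma spec_prod {I : Type} [DecidableEq I] (s : Finset I) (f : I → Finset E → ℝ) (C : ℝ)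
    (h : ∀ i ∈ s, Spec C (f i)) : Spec (C ^ s.card) (fun A => ∏ i ∈ s, f i A) := by
  induction s using Finset.induction_on with
  | empty =>
    simp only [card_empty, pow_zero, prod_empty]
    have := spec_const (E := E) 1
    rwa [abs_one] at this
  | insert i s hi ih =>
    have h1 := (h i (mem_insert_self _ _)).mul (ih fun j hj => h j (mem_insert_of_mem hj))
    rw [card_insert_of_notMem hi, pow_succ, mul_comm]
    simp only [prod_insert hi]
    exact h1

lemma spec_sum {I : Type} [DecidableEq I] (s : Finset I) (f : I → Finset E → ℝ) (C : ℝ)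
    (h : ∀ i ∈ s, Spec C (f i)) : Spec (s.card * C) (fun A => ∑ i ∈ s, f i A) := by
  induction s using Finset.induction_on with
  | empty =>
    simp only [card_empty, Nat.cast_zero, zero_mul, sum_empty]
    have := spec_const (E := E) 0
    rwa [abs_zero] at this
  | insert i s hi ih =>
    have h1 := (h i (mem_insert_self _ _)).add (ih fun j hj => h j (mem_insert_of_mem hj))
    rw [card_insert_of_notMem hi]
    simp only [sum_insert hi]
    refine h1.mono (le_of_eq ?_)
    push_cast
    ring

omit [Fintype E] in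
lemma sg_even (χ A : Finset E) : sg χ A = if Even (A ∩ χ).card then 1 else -1 := by
  unfold sg
  split_ifs with h
  · exact h.neg_one_pow
  · exact (Nat.not_even_iff_odd.1 h).neg_one_pow

open Classical in
/-- the indicator of an affine subspace has spectral norm at most `1` -/
lemma spec_affine (Φ : Finset (Finset E)) (b : Finset E → Prop) :
    Spec 1 (fun A => if ∀ χ ∈ Φ, (Even (A ∩ χ).card ↔ b χ) then (1 : ℝ) else 0) := by
  have h1 : ∀ χ ∈ Φ, Spec 1 (fun A : Finset E => 1 / 2 + (if b χ then (1 / 2 : ℝ) else -(1 / 2)) *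
      sg χ A) := by
    intro χ _
    have h2 := (spec_const (E := E) (1 / 2)).add
      ((spec_char χ).smul (if b χ then (1 / 2 : ℝ) else -(1 / 2)))
    refine h2.mono (le_of_eq ?_)
    split_ifs
    · rw [abs_of_pos (by norm_num : (0 : ℝ) < 1 / 2)]
      norm_num
    · rw [abs_neg, abs_of_pos (by norm_num : (0 : ℝ) < 1 / 2)]
      norm_num
  have h2 := spec_prod Φ _ 1 h1
  rw [one_pow] at h2
  convert h2 using 2 with A
  split_ifs with h
  · symm
    refine prod_eq_one fun χ hχ => ?_
    have h3 := h χ hχ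
    rw [sg_even]
    by_cases hb : b χ
    · rw [if_pos hb, if_pos (h3.2 hb)]
      norm_num
    · rw [if_neg hb, if_neg (fun he => hb (h3.1 he))]
      norm_num
  · push Not at h
    obtain ⟨χ, hχ, h3⟩ := h
    symm
    refine prod_eq_zero hχ ?_
    rw [sg_even]
    by_cases hb : b χ <;> by_cases he : Even (A ∩ χ).card
    · simp [hb, he] at h3
    · rw [if_pos hb, if_neg he]
      norm_num
    · rw [if_neg hb, if_pos he]
      norm_num
    · simp [hb, he] at h3

open Classical in
/-- Boolean combinations of few affine subspaces are thresholds with a margin -/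
lemma spec_combination (m : ℕ) (Φ : Fin m → Finset (Finset E)) (b : Fin m → Finset E → Prop)
    (R : (Fin m → Prop) → Prop) :
    Spec (2 * 4 ^ m + 1) (fun A =>
      if R (fun i => ∀ χ ∈ Φ i, (Even (A ∩ χ).card ↔ b i χ)) then (1 : ℝ) else -1) := by
  set w : Fin m → Finset E → ℝ := fun i A =>
    if ∀ χ ∈ Φ i, (Even (A ∩ χ).card ↔ b i χ) then (1 : ℝ) else 0 with hw
  have hw1 : ∀ i, Spec 1 (w i) := fun i => spec_affine (Φ i) (b i)
  have h1 : ∀ (σ : Fin m → Prop) (i : Fin m),
      Spec 2 (fun A => if σ i then w i A else 1 + (-1) * w i A) := by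
    intro σ i
    by_cases h : σ i
    · simp only [if_pos h]
      exact (hw1 i).mono (by norm_num)
    · simp only [if_neg h]
      have := (spec_const (E := E) 1).add ((hw1 i).smul (-1))
      refine this.mono (le_of_eq ?_)
      rw [abs_neg, abs_one]
      norm_num
  have h2 : ∀ σ : Fin m → Prop, Spec (2 ^ m)
      (fun A => ∏ i, if σ i then w i A else 1 + (-1) * w i A) := by
    intro σ
    have := spec_prod (univ : Finset (Fin m)) _ 2 (fun i _ => h1 σ i)
    rwa [card_univ, Fintype.card_fin] at this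
  have h3 := (spec_sum (univ.filter fun σ : Fin m → Prop => R σ) _ (2 ^ m) (fun σ _ => h2 σ)).smul 2
  have h4 := h3.add (spec_const (E := E) (-1))
  have hval : ∀ A : Finset E, ∑ σ ∈ (univ.filter fun σ : Fin m → Prop => R σ),
      (∏ i, if σ i then w i A else 1 + (-1) * w i A)
      = if R (fun i => ∀ χ ∈ Φ i, (Even (A ∩ χ).card ↔ b i χ)) then 1 else 0 := by
    intro A
    set τ : Fin m → Prop := fun i => ∀ χ ∈ Φ i, (Even (A ∩ χ).card ↔ b i χ) with hτ
    have h5 : ∀ σ : Fin m → Prop, (∏ i, if σ i then w i A else 1 + (-1) * w i A)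
        = if σ = τ then 1 else 0 := by
      intro σ
      split_ifs with h
      · refine prod_eq_one fun i _ => ?_
        rw [h]
        by_cases hi : τ i
        · rw [if_pos hi, hw]
          simp only
          rw [if_pos hi]
        · rw [if_neg hi, hw]
          simp only
          rw [if_neg hi]
          norm_num
      · obtain ⟨i, hi⟩ : ∃ i, σ i ≠ τ i := by
          by_contra hcon
          push Not at hcon
          exact h (funext hcon)
        refine prod_eq_zero (mem_univ i) ?_
        by_cases h6 : σ i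
        · have h7 : ¬ τ i := fun h8 => hi (propext ⟨fun _ => h8, fun _ => h6⟩)
          rw [if_pos h6, hw]
          simp only
          rw [if_neg h7]
        · have h7 : τ i := by
            by_contra h8
            exact hi (propext ⟨fun h9 => (h6 h9).elim, fun h9 => (h8 h9).elim⟩)
          rw [if_neg h6, hw]
          simp only
          rw [if_pos h7]
          norm_num
    rw [sum_congr rfl fun σ _ => h5 σ]
    by_cases hR : R τ
    · rw [if_pos hR]
      rw [sum_ite_eq' _ τ]
      rw [if_pos (mem_filter.2 ⟨mem_univ _, hR⟩)]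
    · rw [if_neg hR]
      refine sum_eq_zero fun σ hσ => ?_
      rw [if_neg]
      rintro rfl
      exact hR (mem_filter.1 hσ).2
  obtain ⟨c, hc1, hc2⟩ := h4
  refine ⟨c, fun A => ?_, hc2.trans ?_⟩
  · have h9 := hc1 A
    beta_reduce at h9 ⊢
    rw [← h9, hval A]
    split_ifs <;> norm_num
  · have hcard : ((univ.filter fun σ : Fin m → Prop => R σ).card : ℝ) ≤ 2 ^ m := by
      have h6 : (univ.filter fun σ : Fin m → Prop => R σ).card ≤ 2 ^ m := by
        refine (card_filter_le _ _).trans ?_
        rw [card_univ, Fintype.card_fun, Fintype.card_prop, Fintype.card_fin]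
      exact_mod_cast h6
    rw [abs_of_pos (by norm_num : (0 : ℝ) < 2), abs_neg, abs_one]
    have h7 : (0 : ℝ) ≤ 2 ^ m := by positivity
    have h8 : (4 : ℝ) ^ m = 2 ^ m * 2 ^ m := by rw [← mul_pow]; norm_num
    rw [h8]
    nlinarith

end Pool.Agent.R158.SN
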